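import Mathlib

/-!
# The functions `X ↦ max_V Re Tr (P V X V*)`
-/

set_option autoImplicit false

noncomputable section

namespace Pool.Agent.V11261.CO

open Matrix Finset
open scoped ComplexOrder

variable {κ : Type*} [Fintype κ] [DecidableEq κ]

/-- the unitary matrices -/
def UU (κ : Type*) [Fintype κ] [DecidableEq κ] : Set (Matrix κ κ ℂ) :=
  {V | V ∈ Matrix.unitaryGroup κ ℂ}

theorem UU_compact : IsCompact (UU κ) := by
  have hK : IsCompact (Set.pi Set.univ fun _ : κ => Set.pi Set.univ fun _ : κ =>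
      Metric.closedBall (0 : ℂ) 1) :=
    isCompact_univ_pi fun _ => isCompact_univ_pi fun _ => isCompact_closedBall _ _
  have hcl : IsClosed (UU κ) := by
    have : UU κ = {V : Matrix κ κ ℂ | star V * V = 1} := by
      ext V
      exact Matrix.mem_unitaryGroup_iff'
    rw [this]
    exact isClosed_eq ((continuous_id.matrix_conjTranspose).matrix_mul continuous_id)
      continuous_const
  refine IsCompact.of_isClosed_subset (X := Matrix κ κ ℂ) hK hcl ?_
  intro U hU i _ j _
  rw [mem_closedBall_zero_iff]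
  exact entry_norm_bound_of_unitary hU i j

theorem UU_nonempty : (UU κ).Nonempty :=
  ⟨1, (one_mem _ : (1 : Matrix κ κ ℂ) ∈ Matrix.unitaryGroup κ ℂ)⟩

/-- `Re Tr (P V X V*)` -/
def lin (P X V : Matrix κ κ ℂ) : ℝ := (Matrix.trace (P * (V * X * star V))).re

theorem lin_cont (P : Matrix κ κ ℂ) :
    Continuous fun z : Matrix κ κ ℂ × Matrix κ κ ℂ => lin P z.1 z.2 := by
  unfold lin
  refine Complex.continuous_re.comp (Continuous.matrix_trace ?_)
  refine continuous_const.matrix_mul ?_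
  exact (continuous_snd.matrix_mul continuous_fst).matrix_mul continuous_snd.matrix_conjTranspose

/-- `max_V Re Tr (P V X V*)` over the unitary matrices -/
def gP (P X : Matrix κ κ ℂ) : ℝ := sSup (lin P X '' UU κ)

theorem gP_cont (P : Matrix κ κ ℂ) : Continuous (gP P) :=
  UU_compact.continuous_sSup (f := lin P) (lin_cont P)

theorem gP_attained (P X : Matrix κ κ ℂ) :
    ∃ V ∈ UU κ, gP P X = lin P X V ∧ ∀ W ∈ UU κ, lin P X W ≤ lin P X V :=
  UU_compact.exists_sSup_image_eq_and_ge UU_nonempty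
    ((lin_cont P).comp (Continuous.prodMk_right X)).continuousOn

theorem lin_le_gP (P X : Matrix κ κ ℂ) {V : Matrix κ κ ℂ} (hV : V ∈ UU κ) :
    lin P X V ≤ gP P X := by
  obtain ⟨W, -, h1, h2⟩ := gP_attained P X
  rw [h1]
  exact h2 V hV

theorem gP_zero (X : Matrix κ κ ℂ) : gP 0 X = 0 := by
  obtain ⟨W, -, h1, -⟩ := gP_attained 0 X
  rw [h1]
  unfold lin
  simp

theorem lin_comb (P X Y V : Matrix κ κ ℂ) (a b : ℝ) :
    lin P (a • X + b • Y) V = a * lin P X V + b * lin P Y V := by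
  unfold lin
  rw [Matrix.mul_add, Matrix.add_mul, Matrix.mul_add, Matrix.trace_add, Matrix.mul_smul,
    Matrix.mul_smul, Matrix.smul_mul, Matrix.smul_mul, Matrix.mul_smul, Matrix.mul_smul,
    Matrix.trace_smul, Matrix.trace_smul, Complex.add_re, Complex.smul_re, Complex.smul_re,
    smul_eq_mul, smul_eq_mul]

theorem dens_convex : Convex ℝ {ρ : Matrix κ κ ℂ | ρ.PosSemidef ∧ ρ.trace = 1} := by
  intro X hX Y hY a b ha hb hab
  refine ⟨?_, ?_⟩
  · have h1 : (a • X).PosSemidef := by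
      have : a • X = (a : ℂ) • X := by ext i j; simp
      rw [this]
      exact hX.1.smul (by rw [Complex.zero_le_real]; exact ha)
    have h2 : (b • Y).PosSemidef := by
      have : b • Y = (b : ℂ) • Y := by ext i j; simp
      rw [this]
      exact hY.1.smul (by rw [Complex.zero_le_real]; exact hb)
    exact h1.add h2
  · rw [Matrix.trace_add, Matrix.trace_smul, Matrix.trace_smul, hX.2, hY.2]
    apply Complex.ext
    · simp [hab]
    · simp

theorem gP_convex (P : Matrix κ κ ℂ) :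
    ConvexOn ℝ {ρ : Matrix κ κ ℂ | ρ.PosSemidef ∧ ρ.trace = 1} (gP P) := by
  refine ⟨dens_convex, fun X _ Y _ a b ha hb _ => ?_⟩
  obtain ⟨V, hV, h1, -⟩ := gP_attained P (a • X + b • Y)
  rw [h1, lin_comb, smul_eq_mul, smul_eq_mul]
  exact add_le_add (mul_le_mul_of_nonneg_left (lin_le_gP P X hV) ha)
    (mul_le_mul_of_nonneg_left (lin_le_gP P Y hV) hb)

theorem gP_unitary (P : Matrix κ κ ℂ) {U : Matrix κ κ ℂ} (hU : U ∈ Matrix.unitaryGroup κ ℂ)
    (X : Matrix κ κ ℂ) : gP P (U * X * star U) = gP P X := by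
  have hlin : ∀ V, lin P (U * X * star U) V = lin P X (V * U) := by
    intro V
    unfold lin
    rw [StarMul.star_mul]
    simp only [Matrix.mul_assoc]
  refine le_antisymm ?_ ?_
  · obtain ⟨V, hV, h1, -⟩ := gP_attained P (U * X * star U)
    rw [h1, hlin]
    exact lin_le_gP P X (mul_mem hV hU)
  · obtain ⟨V, hV, h1, -⟩ := gP_attained P X
    have h2 : V = V * star U * U := by
      rw [Matrix.mul_assoc, Matrix.mem_unitaryGroup_iff'.1 hU, Matrix.mul_one]
    rw [h1, h2, ← hlin]
    exact lin_le_gP P _ (mul_mem hV (Unitary.star_mem hU))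

/-- the value on a diagonalised matrix -/
theorem upper {P W : Matrix κ κ ℂ} (hP : P * P = P) (hPs : Pᴴ = P)
    (hW : W ∈ Matrix.unitaryGroup κ ℂ) (q : κ → ℝ) :
    ∃ r : κ → ℝ, (∀ b, 0 ≤ r b ∧ r b ≤ 1) ∧ ∑ b, r b = P.trace.re ∧
      gP P (W * diagonal (fun b => (q b : ℂ)) * star W) = ∑ b, r b * q b := by
  obtain ⟨V, hV, h1, -⟩ := gP_attained P (W * diagonal (fun b => (q b : ℂ)) * star W)
  obtain ⟨Y, hY⟩ : ∃ Y, Y = V * W := ⟨_, rfl⟩
  have hYu : Y ∈ Matrix.unitaryGroup κ ℂ := by rw [hY]; exact mul_mem hV hW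
  have hnn : ∀ (Q : Matrix κ κ ℂ), Q * Q = Q → Qᴴ = Q → ∀ b, 0 ≤ ((Yᴴ * Q * Y) b b).re := by
    intro Q hQ hQs b
    have e1 : Yᴴ * Q * Y = (Q * Y)ᴴ * (Q * Y) := by
      rw [Matrix.conjTranspose_mul, hQs]
      calc Yᴴ * Q * Y = Yᴴ * (Q * Q) * Y := by rw [hQ]
        _ = Yᴴ * Q * (Q * Y) := by simp only [Matrix.mul_assoc]
    rw [e1, Matrix.mul_apply, Complex.re_sum]
    refine Finset.sum_nonneg fun a _ => ?_
    rw [Matrix.conjTranspose_apply, Complex.star_def, ← Complex.normSq_eq_conj_mul_self,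
      Complex.ofReal_re]
    exact Complex.normSq_nonneg _
  have hYY : Yᴴ * Y = 1 := Matrix.mem_unitaryGroup_iff'.1 hYu
  have hYY' : Y * Yᴴ = 1 := Matrix.mem_unitaryGroup_iff.1 hYu
  refine ⟨fun b => ((Yᴴ * P * Y) b b).re, fun b => ⟨hnn P hP hPs b, ?_⟩, ?_, ?_⟩
  · have h2 := hnn (1 - P) (by rw [Matrix.sub_mul, Matrix.one_mul, Matrix.mul_sub, Matrix.mul_one,
      hP, sub_self, sub_zero]) (by rw [Matrix.conjTranspose_sub, Matrix.conjTranspose_one, hPs]) b
    rw [Matrix.mul_sub, Matrix.mul_one, Matrix.sub_mul, hYY, Matrix.sub_apply,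
      Matrix.one_apply_eq, Complex.sub_re, Complex.one_re] at h2
    linarith
  · rw [← Complex.re_sum]
    have : ∑ b, (Yᴴ * P * Y) b b = (Yᴴ * P * Y).trace := rfl
    rw [this, Matrix.mul_assoc, Matrix.trace_mul_comm, Matrix.mul_assoc, hYY', Matrix.mul_one]
  · rw [h1]
    unfold lin
    have e1 : P * (V * (W * diagonal (fun b => (q b : ℂ)) * star W) * star V) =
        P * Y * diagonal (fun b => (q b : ℂ)) * Yᴴ := by
      have : Yᴴ = star W * star V := by rw [hY]; exact StarMul.star_mul V W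
      rw [this, hY]
      simp only [Matrix.mul_assoc]
    rw [e1, Matrix.trace_mul_comm, ← Matrix.mul_assoc, ← Matrix.mul_assoc]
    unfold Matrix.trace
    rw [Complex.re_sum]
    refine Finset.sum_congr rfl fun b _ => ?_
    rw [Matrix.diag_apply, Matrix.mul_diagonal, mul_comm, Complex.re_ofReal_mul, mul_comm]

/-- linear functions on the hypersimplex are maximal at vertices -/
theorem vertex (r v : κ → ℝ) (hr : ∀ b, 0 ≤ r b ∧ r b ≤ 1) (k : ℕ) (hk : ∑ b, r b = k) :
    ∃ C : Finset κ, C.card = k ∧ ∑ b, r b * v b ≤ ∑ b ∈ C, v b := by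
  have hcard : k ≤ Fintype.card κ := by
    have h1 : ∑ b, r b ≤ ∑ _b : κ, (1 : ℝ) := Finset.sum_le_sum fun b _ => (hr b).2
    rw [hk] at h1
    simp at h1
    exact_mod_cast h1
  obtain ⟨C0, hC0⟩ : ((Finset.univ : Finset κ).powersetCard k).Nonempty := by
    rw [Finset.powersetCard_nonempty, Finset.card_univ]
    exact hcard
  obtain ⟨C, hC, hmax⟩ := Finset.exists_max_image ((Finset.univ : Finset κ).powersetCard k)
    (fun C => ∑ b ∈ C, v b) ⟨C0, hC0⟩
  rw [Finset.mem_powersetCard] at hC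
  refine ⟨C, hC.2, ?_⟩
  rcases Nat.eq_zero_or_pos k with hk0 | hk0
  · have hr0 : ∀ b, r b = 0 := by
      intro b
      rw [hk0, Nat.cast_zero] at hk
      exact (Finset.sum_eq_zero_iff_of_nonneg fun b _ => (hr b).1).1 hk b (Finset.mem_univ b)
    have hCe : C = ∅ := Finset.card_eq_zero.1 (by rw [hC.2, hk0])
    rw [hCe]
    simp [hr0]
  · have hCne : C.Nonempty := Finset.card_pos.1 (by rw [hC.2]; exact hk0)
    obtain ⟨b0, hb0, hmin⟩ := Finset.exists_min_image C v hCne
    have hout : ∀ b, b ∉ C → v b ≤ v b0 := by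
      intro b hb
      have h1 := hmax (insert b (C.erase b0)) (by
        rw [Finset.mem_powersetCard]
        refine ⟨Finset.subset_univ _, ?_⟩
        rw [Finset.card_insert_of_notMem (fun h => hb (Finset.mem_of_mem_erase h)),
          Finset.card_erase_of_mem hb0, hC.2]
        omega)
      rw [Finset.sum_insert (fun h => hb (Finset.mem_of_mem_erase h)),
        ← Finset.add_sum_erase C v hb0] at h1
      linarith
    have h2 : ∑ b, r b * v b = ∑ b, r b * (v b - v b0) + k * v b0 := by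
      rw [← hk, Finset.sum_mul, ← Finset.sum_add_distrib]
      refine Finset.sum_congr rfl fun b _ => ?_
      ring
    have h3 : ∑ b ∈ C, v b = ∑ b ∈ C, (v b - v b0) + k * v b0 := by
      rw [Finset.sum_sub_distrib, Finset.sum_const, hC.2, nsmul_eq_mul]
      ring
    have h4 : ∑ b, r b * (v b - v b0) ≤ ∑ b ∈ C, (v b - v b0) := by
      rw [← Finset.sum_add_sum_compl C]
      have h5 : ∑ b ∈ C, r b * (v b - v b0) ≤ ∑ b ∈ C, (v b - v b0) := by
        refine Finset.sum_le_sum fun b hb => ?_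
        have := hmin b hb
        have := (hr b).2
        nlinarith
      have h6 : ∑ b ∈ Cᶜ, r b * (v b - v b0) ≤ 0 := by
        refine Finset.sum_nonpos fun b hb => ?_
        have := hout b (Finset.mem_compl.1 hb)
        exact mul_nonpos_of_nonneg_of_nonpos (hr b).1 (by linarith)
      linarith
    rw [h2, h3]
    linarith

end Pool.Agent.V11261.CO
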