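import Mathlib
import Pool.Agent.V11261.CO.Ky

/-!
# Marginals of classical states of three qubits
-/

set_option autoImplicit false

noncomputable section

namespace Pool.Agent.V11261.CO

open Matrix Finset

/-- the product of the matrices `W i`, `i ∈ s` -/
def KW {s : Type} [Fintype s] (W : s → Matrix (Fin 2) (Fin 2) ℂ) :
    Matrix (s → Fin 2) (s → Fin 2) ℂ :=
  Matrix.of fun x y => ∏ i, W i (x i) (y i)

theorem KW_star_mul {s : Type} [Fintype s] [DecidableEq s] {W : s → Matrix (Fin 2) (Fin 2) ℂ}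
    (hW : ∀ i, W i ∈ Matrix.unitaryGroup (Fin 2) ℂ) : star (KW W) * KW W = 1 := by
  ext x y
  rw [Matrix.mul_apply]
  have h1 : ∀ z, star (KW W) x z * KW W z y = ∏ i, (star (W i (z i) (x i)) * W i (z i) (y i)) := by
    intro z
    rw [Matrix.star_apply]
    unfold KW
    rw [Matrix.of_apply, Matrix.of_apply, star_prod, ← Finset.prod_mul_distrib]
  simp only [h1]
  have h2 := Finset.prod_univ_sum (fun _ : s => (Finset.univ : Finset (Fin 2)))
    (fun i j => star (W i j (x i)) * W i j (y i))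
  rw [Fintype.piFinset_univ] at h2
  rw [← h2]
  have h3 : ∀ i, ∑ j, star (W i j (x i)) * W i j (y i) = if x i = y i then 1 else 0 := by
    intro i
    have h4 := congrFun (congrFun (Matrix.mem_unitaryGroup_iff'.1 (hW i)) (x i)) (y i)
    rw [Matrix.mul_apply, Matrix.one_apply] at h4
    simpa only [Matrix.star_apply] using h4
  simp only [h3]
  rw [Matrix.one_apply]
  by_cases hxy : x = y
  · rw [if_pos hxy]
    refine Finset.prod_eq_one fun i _ => ?_
    rw [if_pos (congrFun hxy i)]
  · rw [if_neg hxy]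
    obtain ⟨i, hi⟩ := Function.ne_iff.1 hxy
    exact Finset.prod_eq_zero (Finset.mem_univ i) (if_neg hi)

theorem KW_unitary {s : Type} [Fintype s] [DecidableEq s] {W : s → Matrix (Fin 2) (Fin 2) ℂ}
    (hW : ∀ i, W i ∈ Matrix.unitaryGroup (Fin 2) ℂ) : KW W ∈ Matrix.unitaryGroup (s → Fin 2) ℂ :=
  Matrix.mem_unitaryGroup_iff'.2 (KW_star_mul hW)

/-- configurations of three qubits -/
abbrev X3 := Fin 3 → Fin 2

/-- glue two partial configurations -/
def glue (I : Finset (Fin 3)) (a : {i // i ∈ I} → Fin 2) (c : {i // i ∉ I} → Fin 2) : X3 :=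
  fun i => if h : i ∈ I then a ⟨i, h⟩ else c ⟨i, h⟩

/-- the marginal on the qubits in `I` -/
def marg (I : Finset (Fin 3)) (σ : Matrix X3 X3 ℂ) :
    Matrix ({i // i ∈ I} → Fin 2) ({i // i ∈ I} → Fin 2) ℂ :=
  Matrix.of fun a b => ∑ c : {i // i ∉ I} → Fin 2, σ (glue I a c) (glue I b c)

/-- restriction -/
def rst (I : Finset (Fin 3)) (x : X3) : {i // i ∈ I} → Fin 2 := fun i => x i.1

theorem marg_classical (I : Finset (Fin 3)) {W : Fin 3 → Matrix (Fin 2) (Fin 2) ℂ}
    (hW : ∀ i, W i ∈ Matrix.unitaryGroup (Fin 2) ℂ) (q : X3 → ℝ) :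
    marg I (KW W * diagonal (fun x => (q x : ℂ)) * star (KW W)) =
      KW (fun i : {i // i ∈ I} => W i.1) *
        diagonal (fun a => ((∑ x, if rst I x = a then q x else 0 : ℝ) : ℂ)) *
        star (KW (fun i : {i // i ∈ I} => W i.1)) := by
  ext a b
  obtain ⟨A, hA⟩ : ∃ A, A = KW (fun i : {i // i ∈ I} => W i.1) := ⟨_, rfl⟩
  obtain ⟨C, hC⟩ : ∃ C, C = KW (fun i : {i // i ∉ I} => W i.1) := ⟨_, rfl⟩
  have hsplit : ∀ (a : {i // i ∈ I} → Fin 2) (c : {i // i ∉ I} → Fin 2) (y : X3),
      KW W (glue I a c) y = A a (rst I y) * C c (fun i => y i.1) := by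
    intro a c y
    rw [hA, hC]
    unfold KW
    rw [Matrix.of_apply, Matrix.of_apply, Matrix.of_apply,
      ← Fintype.prod_subtype_mul_prod_subtype (fun i => i ∈ I)]
    congr 1
    · refine Finset.prod_congr (Finset.ext fun i => by simp) fun i _ => ?_
      unfold glue rst
      rw [dif_pos i.2]
    · refine Finset.prod_congr (Finset.ext fun i => by simp) fun i _ => ?_
      unfold glue
      rw [dif_neg i.2]
  have hCu : ∀ y : {i // i ∉ I} → Fin 2, ∑ c, C c y * star (C c y) = 1 := by
    intro y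
    have h1 := KW_star_mul (W := fun i : {i // i ∉ I} => W i.1) (fun i => hW i.1)
    rw [← hC] at h1
    have h2 := congrFun (congrFun h1 y) y
    rw [Matrix.mul_apply, Matrix.one_apply_eq] at h2
    rw [← h2]
    refine Finset.sum_congr rfl fun c _ => ?_
    rw [Matrix.star_apply, mul_comm]
  rw [← hA]
  have hL : marg I (KW W * diagonal (fun x => (q x : ℂ)) * star (KW W)) a b =
      ∑ y, A a (rst I y) * (q y : ℂ) * star (A b (rst I y)) := by
    unfold marg
    rw [Matrix.of_apply]
    have e1 : ∀ c, (KW W * diagonal (fun x => (q x : ℂ)) * star (KW W)) (glue I a c)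
        (glue I b c) = ∑ y, (A a (rst I y) * (q y : ℂ) * star (A b (rst I y))) *
          (C c (fun i => y i.1) * star (C c (fun i => y i.1))) := by
      intro c
      rw [Matrix.mul_apply]
      refine Finset.sum_congr rfl fun y _ => ?_
      rw [Matrix.mul_diagonal, Matrix.star_apply, hsplit, hsplit, StarMul.star_mul]
      ring
    rw [Finset.sum_congr rfl fun c _ => e1 c, Finset.sum_comm]
    refine Finset.sum_congr rfl fun y _ => ?_
    rw [← Finset.mul_sum, hCu, mul_one]
  have hR : (A * diagonal (fun a => ((∑ x, if rst I x = a then q x else 0 : ℝ) : ℂ)) *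
      star A) a b = ∑ y, A a (rst I y) * (q y : ℂ) * star (A b (rst I y)) := by
    rw [Matrix.mul_apply]
    have e1 : ∀ z, (A * diagonal (fun a => ((∑ x, if rst I x = a then q x else 0 : ℝ) : ℂ))) a z *
        (star A) z b = ∑ y, if rst I y = z then
          A a (rst I y) * (q y : ℂ) * star (A b (rst I y)) else 0 := by
      intro z
      rw [Matrix.mul_diagonal, Matrix.star_apply, Complex.ofReal_sum, Finset.mul_sum,
        Finset.sum_mul]
      refine Finset.sum_congr rfl fun y _ => ?_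
      by_cases h : rst I y = z
      · rw [if_pos h, if_pos h, h]
      · rw [if_neg h, if_neg h]
        simp
    rw [Finset.sum_congr rfl fun z _ => e1 z, Finset.sum_comm]
    refine Finset.sum_congr rfl fun y _ => ?_
    rw [Finset.sum_ite_eq, if_pos (Finset.mem_univ _)]
  rw [hL, hR]

/-- the value of `gP` on the marginal of a classical state -/
theorem classical_value (I : Finset (Fin 3)) {W : Fin 3 → Matrix (Fin 2) (Fin 2) ℂ}
    (hW : ∀ i, W i ∈ Matrix.unitaryGroup (Fin 2) ℂ) (q : X3 → ℝ)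
    {P : Matrix ({i // i ∈ I} → Fin 2) ({i // i ∈ I} → Fin 2) ℂ} (hP : P * P = P) (hPs : Pᴴ = P)
    {k : ℕ} (hk : P.trace.re = k) :
    ∃ C : Finset ({i // i ∈ I} → Fin 2), C.card = k ∧
      gP P (marg I (KW W * diagonal (fun x => (q x : ℂ)) * star (KW W))) ≤
        ∑ x, if rst I x ∈ C then q x else 0 := by
  rw [marg_classical I hW q]
  obtain ⟨r, hr1, hr2, hr3⟩ := upper hP hPs
    (KW_unitary (W := fun i : {i // i ∈ I} => W i.1) (fun i => hW i.1))
    (fun a => ∑ x, if rst I x = a then q x else 0)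
  obtain ⟨C, hC1, hC2⟩ := vertex r (fun a => ∑ x, if rst I x = a then q x else 0) hr1 k
    (by rw [hr2, hk])
  refine ⟨C, hC1, ?_⟩
  rw [hr3]
  refine hC2.trans (le_of_eq ?_)
  rw [Finset.sum_comm]
  refine Finset.sum_congr rfl fun x _ => ?_
  rw [Finset.sum_ite_eq]

end Pool.Agent.V11261.CO
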