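import Mathlib
import Pool.Agent.V11261.CO.Marg

/-!
# The data of the counterexample
-/

set_option autoImplicit false

namespace Pool.Agent.V11261.CO

open Matrix Finset

/-- five times the unitary matrix -/
def s5 (x y : X3) : ℤ :=
  if x 0 ≠ y 0 then 0
  else if x 1 = x 2 then (if x = y then 5 else 0)
  else if y 1 = y 2 then 0
  else if x 1 = y 1 then 4
  else if x 0 = x 1 then -3 else 3

/-- the support of the spectrum -/
def spt (x : X3) : ℤ := if x 0 = 0 then (if x 1 = 0 then 1 else 0) else (if x 2 = 0 then 1 else 0)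

/-- twice the projections -/
def g2 (I : Finset (Fin 3)) (x y : X3) : ℤ :=
  if I = {0, 1} then (if x 0 = 0 ∧ x 1 = 0 ∧ y 0 = 0 ∧ y 1 = 0 then 2 else 0)
  else if I = {0, 2} then (if x 0 = 1 ∧ x 2 = 0 ∧ y 0 = 1 ∧ y 2 = 0 then 2 else 0)
  else if I = {1, 2} then
    (if x 1 = 0 ∧ x 2 = 0 ∧ y 1 = 0 ∧ y 2 = 0 then 2 else
      if x 1 ≠ x 2 ∧ y 1 ≠ y 2 then 1 else 0)
  else 0

/-- extension by zero -/
def ex (I : Finset (Fin 3)) (a : {i // i ∈ I} → Fin 2) : X3 :=
  fun i => if h : i ∈ I then a ⟨i, h⟩ else 0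

/-- the integer matrices -/
def gI (I : Finset (Fin 3)) (a b : {i // i ∈ I} → Fin 2) : ℤ := g2 I (ex I a) (ex I b)

/-- the lower value of the marginal -/
def lowv (I : Finset (Fin 3)) : ℤ :=
  ∑ a : {i // i ∈ I} → Fin 2, ∑ b : {i // i ∈ I} → Fin 2, ∑ c : {i // i ∉ I} → Fin 2, ∑ z : X3,
    gI I a b * (s5 (glue I b c) z * spt z * s5 (glue I a c) z)

set_option maxRecDepth 100000

theorem s5_unit : ∀ x y : X3, ∑ z : X3, s5 z x * s5 z y = if x = y then 25 else 0 := by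
  decide

theorem gI_idem : ∀ I : Finset (Fin 3), ∀ a b : {i // i ∈ I} → Fin 2,
    ∑ c : {i // i ∈ I} → Fin 2, gI I a c * gI I c b = 2 * gI I a b := by
  decide

theorem gI_symm : ∀ I : Finset (Fin 3), ∀ a b : {i // i ∈ I} → Fin 2, gI I a b = gI I b a := by
  decide

/-- twice the rank -/
def rk (I : Finset (Fin 3)) : ℕ := if I = {0, 1} then 1 else if I = {0, 2} then 1 else
  if I = {1, 2} then 2 else 0

theorem gI_tr : ∀ I : Finset (Fin 3), ∑ a : {i // i ∈ I} → Fin 2, gI I a a = 2 * (rk I : ℤ) := by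
  decide

theorem lowv01 : lowv {0, 1} = 82 := by
  decide +kernel

theorem lowv02 : lowv {0, 2} = 82 := by
  decide +kernel

theorem lowv12 : lowv {1, 2} = 198 := by
  decide +kernel

theorem sum_rk : ∀ I : Finset (Fin 3), rk I ≠ 0 → I = {0, 1} ∨ I = {0, 2} ∨ I = {1, 2} := by
  decide

theorem gI_rk : ∀ I : Finset (Fin 3), rk I = 0 → ∀ a b : {i // i ∈ I} → Fin 2, gI I a b = 0 := by
  decide

theorem spt_nonneg : ∀ x : X3, spt x = 0 ∨ spt x = 1 := by
  decide

theorem spt_sum : ∑ x : X3, spt x = 4 := by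
  decide

/-- the combinatorial bound -/
theorem comb : ∀ a : {i // i ∈ ({0, 1} : Finset (Fin 3))} → Fin 2,
    ∀ b : {i // i ∈ ({0, 2} : Finset (Fin 3))} → Fin 2,
    ∀ c c' : {i // i ∈ ({1, 2} : Finset (Fin 3))} → Fin 2, c ≠ c' →
    ∑ x : X3, (((if rst {0, 1} x = a then 1 else 0) + (if rst {0, 2} x = b then 1 else 0) +
      (if rst {1, 2} x = c ∨ rst {1, 2} x = c' then 1 else 0) : ℕ) - 1) ≤ 3 := by
  decide +kernel

end Pool.Agent.V11261.CO
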