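import Mathlib
import Pool.Agent.V11261.CO.Data

/-!
# The counterexample
-/

set_option autoImplicit false

noncomputable section

namespace Pool.Agent.V11261.CO

open Matrix Finset

/-- the projections -/
def PI (I : Finset (Fin 3)) : Matrix ({i // i ∈ I} → Fin 2) ({i // i ∈ I} → Fin 2) ℂ :=
  Matrix.of fun a b => ((gI I a b : ℤ) : ℂ) / 2

theorem PI_idem (I : Finset (Fin 3)) : PI I * PI I = PI I := by
  ext a b
  rw [Matrix.mul_apply]
  unfold PI
  simp only [Matrix.of_apply]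
  have h2 : (∑ c, ((gI I a c : ℤ) : ℂ) * ((gI I c b : ℤ) : ℂ)) = 2 * ((gI I a b : ℤ) : ℂ) := by
    exact_mod_cast gI_idem I a b
  have h3 : ∑ c, ((gI I a c : ℤ) : ℂ) / 2 * (((gI I c b : ℤ) : ℂ) / 2) =
      (∑ c, ((gI I a c : ℤ) : ℂ) * ((gI I c b : ℤ) : ℂ)) / 4 := by
    rw [Finset.sum_div]
    refine Finset.sum_congr rfl fun c _ => ?_
    ring
  rw [h3, h2]
  ring

theorem PI_herm (I : Finset (Fin 3)) : (PI I)ᴴ = PI I := by
  ext a b
  rw [Matrix.conjTranspose_apply]
  unfold PI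
  simp only [Matrix.of_apply]
  rw [gI_symm I b a]
  simp

theorem PI_trace (I : Finset (Fin 3)) : (PI I).trace.re = ((rk I : ℕ) : ℝ) := by
  have h1 : (PI I).trace = ((rk I : ℕ) : ℂ) := by
    unfold Matrix.trace PI
    simp only [Matrix.diag_apply, Matrix.of_apply]
    have h2 : (∑ a, ((gI I a a : ℤ) : ℂ)) = 2 * ((rk I : ℕ) : ℂ) := by
      exact_mod_cast gI_tr I
    rw [← Finset.sum_div, h2]
    ring
  rw [h1, Complex.natCast_re]

theorem PI_zero (I : Finset (Fin 3)) (h : rk I = 0) : PI I = 0 := by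
  ext a b
  unfold PI
  rw [Matrix.of_apply, gI_rk I h a b]
  simp

theorem sum_three (F : Finset (Fin 3) → ℝ) (hF : ∀ I, rk I = 0 → F I = 0) :
    ∑ I, F I = F {0, 1} + F {0, 2} + F {1, 2} := by
  have h := Finset.sum_subset (Finset.subset_univ ({{0, 1}, {0, 2}, {1, 2}} :
    Finset (Finset (Fin 3)))) (f := F) (fun I _ hI => hF I (by
      by_contra h
      rcases sum_rk I h with h | h | h <;> rw [h] at hI <;> exact hI (by simp)))
  rw [← h, Finset.sum_insert (by decide), Finset.sum_insert (by decide), Finset.sum_singleton,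
    add_assoc]

theorem classical_le {W : Fin 3 → Matrix (Fin 2) (Fin 2) ℂ}
    (hW : ∀ i, W i ∈ Matrix.unitaryGroup (Fin 2) ℂ) (q : X3 → ℝ) (hq0 : ∀ x, 0 ≤ q x)
    (hq1 : ∀ x, q x ≤ 1 / 4) (hs : ∑ x, q x = 1) :
    ∑ I : Finset (Fin 3),
      gP (PI I) (marg I (KW W * diagonal (fun x => (q x : ℂ)) * star (KW W))) ≤ 7 / 4 := by
  rw [sum_three _ (fun I hI => by rw [PI_zero I hI]; exact gP_zero _)]
  obtain ⟨A, hA, hA2⟩ := classical_value {0, 1} hW q (PI_idem _) (PI_herm _) (PI_trace _)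
  obtain ⟨B, hB, hB2⟩ := classical_value {0, 2} hW q (PI_idem _) (PI_herm _) (PI_trace _)
  obtain ⟨C, hC, hC2⟩ := classical_value {1, 2} hW q (PI_idem _) (PI_herm _) (PI_trace _)
  have r1 : rk {0, 1} = 1 := by decide
  have r2 : rk {0, 2} = 1 := by decide
  have r3 : rk {1, 2} = 2 := by decide
  rw [r1] at hA
  rw [r2] at hB
  rw [r3] at hC
  obtain ⟨a, ha⟩ := Finset.card_eq_one.1 hA
  obtain ⟨b, hb⟩ := Finset.card_eq_one.1 hB
  obtain ⟨c, c', hcc, hc⟩ := Finset.card_eq_two.1 hC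
  have hcomb := comb a b c c' hcc
  rw [ha] at hA2
  rw [hb] at hB2
  rw [hc] at hC2
  refine (add_le_add (add_le_add hA2 hB2) hC2).trans ?_
  rw [← Finset.sum_add_distrib, ← Finset.sum_add_distrib]
  have hpt : ∀ x, (((if rst {0, 1} x ∈ ({a} : Finset _) then q x else 0) +
      if rst {0, 2} x ∈ ({b} : Finset _) then q x else 0) +
      if rst {1, 2} x ∈ ({c, c'} : Finset _) then q x else 0) ≤ q x + 1 / 4 *
      ((((if rst {0, 1} x = a then 1 else 0) + (if rst {0, 2} x = b then 1 else 0) +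
        (if rst {1, 2} x = c ∨ rst {1, 2} x = c' then 1 else 0) : ℕ) - 1 : ℕ) : ℝ) := by
    intro x
    have := hq0 x
    have := hq1 x
    simp only [Finset.mem_singleton, Finset.mem_insert]
    by_cases h1 : rst {0, 1} x = a <;> by_cases h2 : rst {0, 2} x = b <;>
      by_cases h3 : rst {1, 2} x = c ∨ rst {1, 2} x = c' <;>
      simp only [h1, h2, h3, if_true, if_false] <;> norm_num <;> linarith
  refine (Finset.sum_le_sum fun x _ => hpt x).trans ?_
  rw [Finset.sum_add_distrib, hs, ← Finset.mul_sum, ← Nat.cast_sum]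
  have : ((∑ x : X3, (((if rst {0, 1} x = a then 1 else 0) + (if rst {0, 2} x = b then 1 else 0) +
      (if rst {1, 2} x = c ∨ rst {1, 2} x = c' then 1 else 0) : ℕ) - 1) : ℕ) : ℝ) ≤ 3 := by
    exact_mod_cast hcomb
  linarith

/-- the spectrum -/
def pp (x : X3) : ℝ := (spt x : ℝ) / 4

theorem pp_nonneg (x : X3) : 0 ≤ pp x := by
  unfold pp
  rcases spt_nonneg x with h | h <;> rw [h] <;> norm_num

theorem pp_le (x : X3) : pp x ≤ 1 / 4 := by
  unfold pp
  rcases spt_nonneg x with h | h <;> rw [h] <;> norm_num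

theorem pp_sum : ∑ x, pp x = 1 := by
  unfold pp
  rw [← Finset.sum_div]
  have : (∑ x : X3, ((spt x : ℤ) : ℝ)) = 4 := by exact_mod_cast spt_sum
  rw [this]
  norm_num

theorem q_bounds {U : Matrix X3 X3 ℂ} (hU : U ∈ Matrix.unitaryGroup X3 ℂ)
    {D : Matrix X3 X3 ℝ} (hD : D ∈ doublyStochastic ℝ X3) {K : Matrix X3 X3 ℂ}
    (hK : K ∈ Matrix.unitaryGroup X3 ℂ) {q : X3 → ℝ}
    (h : U * diagonal (fun x => (((D *ᵥ pp) x : ℝ) : ℂ)) * star U =
      K * diagonal (fun x => ((q x : ℝ) : ℂ)) * star K) :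
    (∀ x, 0 ≤ q x) ∧ (∀ x, q x ≤ 1 / 4) ∧ ∑ x, q x = 1 := by
  obtain ⟨hD0, hD1, hD2⟩ := mem_doublyStochastic_iff_sum.1 hD
  obtain ⟨Z, hZ⟩ : ∃ Z, Z = star K * U := ⟨_, rfl⟩
  have hZu : Z ∈ Matrix.unitaryGroup X3 ℂ := by
    rw [hZ]
    exact mul_mem (Unitary.star_mem hK) hU
  have h1 : diagonal (fun x => ((q x : ℝ) : ℂ)) =
      Z * diagonal (fun x => (((D *ᵥ pp) x : ℝ) : ℂ)) * star Z := by
    have e1 : star Z = star U * K := by rw [hZ, StarMul.star_mul, star_star]
    have e2 : star K * K = 1 := Matrix.mem_unitaryGroup_iff'.1 hK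
    calc diagonal (fun x => ((q x : ℝ) : ℂ))
        = star K * K * diagonal (fun x => ((q x : ℝ) : ℂ)) * (star K * K) := by
          rw [e2, Matrix.one_mul, Matrix.mul_one]
      _ = star K * (K * diagonal (fun x => ((q x : ℝ) : ℂ)) * star K) * K := by
          simp only [Matrix.mul_assoc]
      _ = star K * (U * diagonal (fun x => (((D *ᵥ pp) x : ℝ) : ℂ)) * star U) * K := by rw [h]
      _ = _ := by
          rw [e1, hZ]
          simp only [Matrix.mul_assoc]
  have hq : ∀ x, q x = ∑ y, Complex.normSq (Z x y) * (D *ᵥ pp) y := by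
    intro x
    have h2 := congrFun (congrFun h1 x) x
    rw [Matrix.diagonal_apply_eq, Matrix.mul_apply] at h2
    have h3 : ((q x : ℝ) : ℂ) = ((∑ y, Complex.normSq (Z x y) * (D *ᵥ pp) y : ℝ) : ℂ) := by
      rw [h2, Complex.ofReal_sum]
      refine Finset.sum_congr rfl fun y _ => ?_
      rw [Matrix.mul_diagonal, Matrix.star_apply, Complex.ofReal_mul,
        Complex.normSq_eq_conj_mul_self]
      simp only [Complex.star_def]
      ring
    exact_mod_cast h3
  have hrow : ∀ x, ∑ y, Complex.normSq (Z x y) = 1 := by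
    intro x
    have h2 := congrFun (congrFun (Matrix.mem_unitaryGroup_iff.1 hZu) x) x
    rw [Matrix.mul_apply, Matrix.one_apply_eq] at h2
    have h3 : ((∑ y, Complex.normSq (Z x y) : ℝ) : ℂ) = 1 := by
      rw [← h2, Complex.ofReal_sum]
      refine Finset.sum_congr rfl fun y _ => ?_
      rw [Matrix.star_apply, Complex.star_def, mul_comm, Complex.normSq_eq_conj_mul_self]
    exact_mod_cast h3
  have hcol : ∀ y, ∑ x, Complex.normSq (Z x y) = 1 := by
    intro y
    have h2 := congrFun (congrFun (Matrix.mem_unitaryGroup_iff'.1 hZu) y) y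
    rw [Matrix.mul_apply, Matrix.one_apply_eq] at h2
    have h3 : ((∑ x, Complex.normSq (Z x y) : ℝ) : ℂ) = 1 := by
      rw [← h2, Complex.ofReal_sum]
      refine Finset.sum_congr rfl fun x _ => ?_
      rw [Matrix.star_apply, Complex.star_def, Complex.normSq_eq_conj_mul_self]
    exact_mod_cast h3
  have hmv : ∀ y, (D *ᵥ pp) y = ∑ z, D y z * pp z := fun y => rfl
  have hDp0 : ∀ y, 0 ≤ (D *ᵥ pp) y := by
    intro y
    rw [hmv]
    exact Finset.sum_nonneg fun z _ => mul_nonneg (hD0 y z) (pp_nonneg z)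
  have hDp1 : ∀ y, (D *ᵥ pp) y ≤ 1 / 4 := by
    intro y
    have h2 : (D *ᵥ pp) y ≤ ∑ z, D y z * (1 / 4) := by
      rw [hmv]
      exact Finset.sum_le_sum fun z _ => mul_le_mul_of_nonneg_left (pp_le z) (hD0 y z)
    rw [← Finset.sum_mul, hD1 y, one_mul] at h2
    exact h2
  have hDps : ∑ y, (D *ᵥ pp) y = 1 := by
    have h2 : ∑ y, (D *ᵥ pp) y = ∑ y, ∑ z, D y z * pp z := rfl
    rw [h2, Finset.sum_comm]
    simp only [← Finset.sum_mul, hD2, one_mul]
    exact pp_sum
  refine ⟨fun x => ?_, fun x => ?_, ?_⟩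
  · rw [hq]
    exact Finset.sum_nonneg fun y _ => mul_nonneg (Complex.normSq_nonneg _) (hDp0 y)
  · rw [hq]
    have h2 : ∑ y, Complex.normSq (Z x y) * (D *ᵥ pp) y ≤ ∑ y, Complex.normSq (Z x y) * (1 / 4) :=
      Finset.sum_le_sum fun y _ => mul_le_mul_of_nonneg_left (hDp1 y) (Complex.normSq_nonneg _)
    rw [← Finset.sum_mul, hrow x, one_mul] at h2
    exact h2
  · simp only [hq]
    rw [Finset.sum_comm]
    simp only [← Finset.sum_mul, hcol, one_mul]
    exact hDps

/-- the unitary matrix -/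
def U5 : Matrix X3 X3 ℂ := Matrix.of fun x y => ((s5 x y : ℤ) : ℂ) / 5

theorem U5_unitary : U5 ∈ Matrix.unitaryGroup X3 ℂ := by
  rw [Matrix.mem_unitaryGroup_iff']
  ext x y
  rw [Matrix.mul_apply, Matrix.one_apply]
  simp only [Matrix.star_apply, U5, Matrix.of_apply]
  have h1 : ∀ z, star (((s5 z x : ℤ) : ℂ) / 5) * (((s5 z y : ℤ) : ℂ) / 5) =
      (((s5 z x * s5 z y : ℤ) : ℤ) : ℂ) / 25 := by
    intro z
    have : star (((s5 z x : ℤ) : ℂ) / 5) = ((s5 z x : ℤ) : ℂ) / 5 := by simp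
    rw [this]
    push_cast
    ring
  simp only [h1]
  rw [← Finset.sum_div, ← Int.cast_sum, s5_unit]
  by_cases h : x = y
  · rw [if_pos h, if_pos h]
    norm_num
  · rw [if_neg h, if_neg h]
    norm_num

theorem low (I : Finset (Fin 3)) :
    (lowv I : ℝ) / 200 ≤ gP (PI I) (marg I (U5 * diagonal (fun x => ((pp x : ℝ) : ℂ)) *
      star U5)) := by
  refine le_trans (le_of_eq ?_) (lin_le_gP _ _ (V := 1)
    (one_mem _ : (1 : Matrix _ _ ℂ) ∈ Matrix.unitaryGroup ({i // i ∈ I} → Fin 2) ℂ))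
  unfold lin
  rw [Matrix.one_mul, star_one, Matrix.mul_one]
  have h1 : (PI I * marg I (U5 * diagonal (fun x => ((pp x : ℝ) : ℂ)) * star U5)).trace =
      (((lowv I : ℤ) : ℝ) / 200 : ℝ) := by
    unfold Matrix.trace lowv
    push_cast
    rw [Finset.sum_div]
    refine Finset.sum_congr rfl fun a _ => ?_
    rw [Matrix.diag_apply, Matrix.mul_apply, Finset.sum_div]
    refine Finset.sum_congr rfl fun b _ => ?_
    unfold marg
    rw [Matrix.of_apply, Finset.mul_sum, Finset.sum_div]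
    refine Finset.sum_congr rfl fun c _ => ?_
    rw [Matrix.mul_apply, Finset.mul_sum, Finset.sum_div]
    refine Finset.sum_congr rfl fun z _ => ?_
    rw [Matrix.mul_diagonal, Matrix.star_apply]
    unfold PI U5 pp
    rw [Matrix.of_apply, Matrix.of_apply, Matrix.of_apply]
    have : star (((s5 (glue I a c) z : ℤ) : ℂ) / 5) = ((s5 (glue I a c) z : ℤ) : ℂ) / 5 := by simp
    rw [this]
    push_cast
    ring
  rw [h1, Complex.ofReal_re]

theorem low_sum : 181 / 100 ≤ ∑ I : Finset (Fin 3),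
    gP (PI I) (marg I (U5 * diagonal (fun x => ((pp x : ℝ) : ℂ)) * star U5)) := by
  rw [sum_three _ (fun I hI => by rw [PI_zero I hI]; exact gP_zero _)]
  have h1 := low {0, 1}
  have h2 := low {0, 2}
  have h3 := low {1, 2}
  rw [lowv01] at h1
  rw [lowv02] at h2
  rw [lowv12] at h3
  push_cast at h1 h2 h3
  linarith

end Pool.Agent.V11261.CO
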